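import Mathlib
import Pool.Agent.Helper41.Bar9.Ck0
import Pool.Agent.Helper41.Bar9.Ck1
import Pool.Agent.Helper41.Bar9.Ck2
import Pool.Agent.Helper41.Bar9.Ck3
import Pool.Agent.Helper41.Bar9.Ck4
import Pool.Agent.Helper41.Bar9.Ck5
import Pool.Agent.Helper41.Bar9.Ck6
import Pool.Agent.Helper41.Bar9.Ck7
import Pool.Agent.Helper41.Bar9.Ck8

set_option autoImplicit false

namespace Pool.Agent.Helper41.Bar9

theorem closed : ∀ F ∈ fams, ∀ p ≤ 8, ∀ q ≤ 8, ∃ G ∈ fams, chk F G (table p q) = true := by
  intro F hF p hp q hq
  interval_cases p <;> interval_cases q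
  · exact checkAll_spec length_fams.symm ck_0_0 F hF
  · exact checkAll_spec length_fams.symm ck_0_1 F hF
  · exact checkAll_spec length_fams.symm ck_0_2 F hF
  · exact checkAll_spec length_fams.symm ck_0_3 F hF
  · exact checkAll_spec length_fams.symm ck_0_4 F hF
  · exact checkAll_spec length_fams.symm ck_0_5 F hF
  · exact checkAll_spec length_fams.symm ck_0_6 F hF
  · exact checkAll_spec length_fams.symm ck_0_7 F hF
  · exact checkAll_spec length_fams.symm ck_0_8 F hF
  · exact checkAll_spec length_fams.symm ck_1_0 F hF
  · exact checkAll_spec length_fams.symm ck_1_1 F hF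
  · exact checkAll_spec length_fams.symm ck_1_2 F hF
  · exact checkAll_spec length_fams.symm ck_1_3 F hF
  · exact checkAll_spec length_fams.symm ck_1_4 F hF
  · exact checkAll_spec length_fams.symm ck_1_5 F hF
  · exact checkAll_spec length_fams.symm ck_1_6 F hF
  · exact checkAll_spec length_fams.symm ck_1_7 F hF
  · exact checkAll_spec length_fams.symm ck_1_8 F hF
  · exact checkAll_spec length_fams.symm ck_2_0 F hF
  · exact checkAll_spec length_fams.symm ck_2_1 F hF
  · exact checkAll_spec length_fams.symm ck_2_2 F hF
  · exact checkAll_spec length_fams.symm ck_2_3 F hF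
  · exact checkAll_spec length_fams.symm ck_2_4 F hF
  · exact checkAll_spec length_fams.symm ck_2_5 F hF
  · exact checkAll_spec length_fams.symm ck_2_6 F hF
  · exact checkAll_spec length_fams.symm ck_2_7 F hF
  · exact checkAll_spec length_fams.symm ck_2_8 F hF
  · exact checkAll_spec length_fams.symm ck_3_0 F hF
  · exact checkAll_spec length_fams.symm ck_3_1 F hF
  · exact checkAll_spec length_fams.symm ck_3_2 F hF
  · exact checkAll_spec length_fams.symm ck_3_3 F hF
  · exact checkAll_spec length_fams.symm ck_3_4 F hF
  · exact checkAll_spec length_fams.symm ck_3_5 F hF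
  · exact checkAll_spec length_fams.symm ck_3_6 F hF
  · exact checkAll_spec length_fams.symm ck_3_7 F hF
  · exact checkAll_spec length_fams.symm ck_3_8 F hF
  · exact checkAll_spec length_fams.symm ck_4_0 F hF
  · exact checkAll_spec length_fams.symm ck_4_1 F hF
  · exact checkAll_spec length_fams.symm ck_4_2 F hF
  · exact checkAll_spec length_fams.symm ck_4_3 F hF
  · exact checkAll_spec length_fams.symm ck_4_4 F hF
  · exact checkAll_spec length_fams.symm ck_4_5 F hF
  · exact checkAll_spec length_fams.symm ck_4_6 F hF
  · exact checkAll_spec length_fams.symm ck_4_7 F hF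
  · exact checkAll_spec length_fams.symm ck_4_8 F hF
  · exact checkAll_spec length_fams.symm ck_5_0 F hF
  · exact checkAll_spec length_fams.symm ck_5_1 F hF
  · exact checkAll_spec length_fams.symm ck_5_2 F hF
  · exact checkAll_spec length_fams.symm ck_5_3 F hF
  · exact checkAll_spec length_fams.symm ck_5_4 F hF
  · exact checkAll_spec length_fams.symm ck_5_5 F hF
  · exact checkAll_spec length_fams.symm ck_5_6 F hF
  · exact checkAll_spec length_fams.symm ck_5_7 F hF
  · exact checkAll_spec length_fams.symm ck_5_8 F hF
  · exact checkAll_spec length_fams.symm ck_6_0 F hF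
  · exact checkAll_spec length_fams.symm ck_6_1 F hF
  · exact checkAll_spec length_fams.symm ck_6_2 F hF
  · exact checkAll_spec length_fams.symm ck_6_3 F hF
  · exact checkAll_spec length_fams.symm ck_6_4 F hF
  · exact checkAll_spec length_fams.symm ck_6_5 F hF
  · exact checkAll_spec length_fams.symm ck_6_6 F hF
  · exact checkAll_spec length_fams.symm ck_6_7 F hF
  · exact checkAll_spec length_fams.symm ck_6_8 F hF
  · exact checkAll_spec length_fams.symm ck_7_0 F hF
  · exact checkAll_spec length_fams.symm ck_7_1 F hF
  · exact checkAll_spec length_fams.symm ck_7_2 F hF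
  · exact checkAll_spec length_fams.symm ck_7_3 F hF
  · exact checkAll_spec length_fams.symm ck_7_4 F hF
  · exact checkAll_spec length_fams.symm ck_7_5 F hF
  · exact checkAll_spec length_fams.symm ck_7_6 F hF
  · exact checkAll_spec length_fams.symm ck_7_7 F hF
  · exact checkAll_spec length_fams.symm ck_7_8 F hF
  · exact checkAll_spec length_fams.symm ck_8_0 F hF
  · exact checkAll_spec length_fams.symm ck_8_1 F hF
  · exact checkAll_spec length_fams.symm ck_8_2 F hF
  · exact checkAll_spec length_fams.symm ck_8_3 F hF
  · exact checkAll_spec length_fams.symm ck_8_4 F hF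
  · exact checkAll_spec length_fams.symm ck_8_5 F hF
  · exact checkAll_spec length_fams.symm ck_8_6 F hF
  · exact checkAll_spec length_fams.symm ck_8_7 F hF
  · exact checkAll_spec length_fams.symm ck_8_8 F hF

end Pool.Agent.Helper41.Bar9
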