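import Mathlib

set_option autoImplicit false

namespace Pool.Agent.Helper41.Bar9

/-- Elements of the list at distance one or two are different. -/
def Ok2 : List Nat → Bool
  | [] => true
  | x :: t =>
    (match t with
      | [] => true
      | y :: u => !(Nat.beq x y) && (match u with
        | [] => true
        | z :: _ => !(Nat.beq x z))) && Ok2 t

def insAt {α : Type*} : Nat → α → List α → List α
  | 0, x, l => x :: l
  | _ + 1, x, [] => [x]
  | n + 1, x, y :: l => y :: insAt n x l

def delAt {α : Type*} : Nat → List α → List α
  | _, [] => []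
  | 0, _ :: l => l
  | n + 1, y :: l => y :: delAt n l

def fi : List Nat → Nat → Nat → Nat
  | [], _, i => i
  | y :: t, x, i => cond (Nat.beq x y) i (fi t x (i + 1))

def hs : List Nat → List Nat → List Nat → Nat
  | _, [], _ => 0
  | _, _ :: _, [] => 0
  | prev, x :: t, w :: ws => w * fi prev x 0 + hs (prev ++ [x]) t ws

def idx (l : List Nat) : Nat := hs [] l [0, 0, 0, 837, 526, 553, 379, 849] % 950

def gen : Nat → List (List Nat × Nat)
  | 0 => [([], 0)]
  | m + 1 => (gen m).flatMap fun rn =>
      ((List.range 8).filter fun x => Nat.ble x rn.2 && Ok2 (x :: rn.1)).map fun x =>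
        (x :: rn.1, cond (Nat.beq x rn.2) (rn.2 + 1) rn.2)

def pats : List (List Nat) := (gen 8).map Prod.fst

def maskOf (p q : Nat) (r : List Nat) : List Nat → Nat
  | [] => 0
  | x :: xs => cond (Ok2 (insAt q x r) && Ok2 (delAt p (insAt q x r)))
      (Nat.lor (maskOf p q r xs) (2 ^ idx (delAt p (insAt q x r)))) (maskOf p q r xs)

def row (p q : Nat) (r : List Nat) : Nat × Nat :=
  (2 ^ idx r, maskOf p q r [0, 1, 2, 3, 4, 5, 6, 7])

def table (p q : Nat) : List (Nat × Nat) := pats.map (row p q)

def chk (F G : Nat) : List (Nat × Nat) → Bool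
  | [] => true
  | bm :: t => (Nat.beq (Nat.land G bm.1) 0 || !(Nat.beq (Nat.land F bm.2) 0)) && chk F G t

def checkAll (fams : List Nat) (n : Nat) (T : List (Nat × Nat)) : List Nat → List Nat → Bool
  | [], _ => true
  | _ :: _, [] => false
  | F :: Fs, t :: ts => (Nat.blt t n && chk F (fams.getD t 0) T) && checkAll fams n T Fs ts

def nonemp (F : Nat) : List (List Nat) → Bool
  | [] => false
  | r :: rs => Nat.testBit F (idx r) || nonemp F rs

/-! ### Invariance under renaming of colours -/

lemma beq_map {σ : Nat → Nat} (hσ : Function.Injective σ) (x y : Nat) :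
    Nat.beq (σ x) (σ y) = Nat.beq x y := by
  by_cases h : x = y
  · subst h; simp
  · have h2 : σ x ≠ σ y := fun h3 => h (hσ h3)
    have e1 : Nat.beq x y = false := by
      rw [← Bool.not_eq_true, Nat.beq_eq]; exact h
    have e2 : Nat.beq (σ x) (σ y) = false := by
      rw [← Bool.not_eq_true, Nat.beq_eq]; exact h2
    rw [e1, e2]

lemma Ok2_map {σ : Nat → Nat} (hσ : Function.Injective σ) (l : List Nat) :
    Ok2 (l.map σ) = Ok2 l := by
  induction l with
  | nil => rfl
  | cons x t ih =>
    rcases t with _ | ⟨y, u⟩
    · rfl
    · rcases u with _ | ⟨z, v⟩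
      · simp only [List.map, Ok2, beq_map hσ]
      · simp only [List.map, Ok2, beq_map hσ] at ih ⊢
        rw [ih]

lemma fi_map {σ : Nat → Nat} (hσ : Function.Injective σ) (l : List Nat) (x i : Nat) :
    fi (l.map σ) (σ x) i = fi l x i := by
  induction l generalizing i with
  | nil => rfl
  | cons y t ih => simp only [List.map, fi, beq_map hσ, ih]

lemma hs_map {σ : Nat → Nat} (hσ : Function.Injective σ) (l prev ws : List Nat) :
    hs (prev.map σ) (l.map σ) ws = hs prev l ws := by
  induction l generalizing prev ws with
  | nil => cases ws <;> rfl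
  | cons x t ih =>
    cases ws with
    | nil => rfl
    | cons w ws =>
      simp only [List.map, hs, fi_map hσ]
      have := ih (prev ++ [x]) ws
      rw [List.map_append] at this
      simp only [List.map] at this
      rw [this]

lemma idx_map {σ : Nat → Nat} (hσ : Function.Injective σ) (l : List Nat) :
    idx (l.map σ) = idx l := by
  unfold idx
  have := hs_map hσ l [] [0, 0, 0, 837, 526, 553, 379, 849]
  simp only [List.map] at this
  rw [this]

lemma insAt_map {α β : Type*} (f : α → β) (n : Nat) (x : α) (l : List α) :
    (insAt n x l).map f = insAt n (f x) (l.map f) := by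
  induction n generalizing l with
  | zero => rfl
  | succ n ih =>
    cases l with
    | nil => rfl
    | cons y l => simp only [insAt, List.map, ih]

lemma delAt_map {α β : Type*} (f : α → β) (n : Nat) (l : List α) :
    (delAt n l).map f = delAt n (l.map f) := by
  induction l generalizing n with
  | nil => cases n <;> rfl
  | cons y l ih =>
    cases n with
    | zero => rfl
    | succ n => simp only [delAt, List.map, ih]

/-! ### Completeness of the list of patterns -/

lemma complete (g : List Nat) (hlt : ∀ x ∈ g, x < 8) (hok : Ok2 g = true) :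
    ∃ (r : List Nat) (n : Nat) (σ : Equiv.Perm Nat), (r, n) ∈ gen g.length ∧
      (∀ m, m < 8 → σ m < 8) ∧ g = r.map σ ∧ (∀ x ∈ r, x < n) ∧ (∀ x, x < n → x ∈ r) ∧ n ≤ 8 := by
  induction g with
  | nil => exact ⟨[], 0, Equiv.refl _, by simp [gen], by simp, by simp, by simp, by simp, by simp⟩
  | cons y g ih =>
    have hok' : Ok2 g = true := by
      simp only [Ok2, Bool.and_eq_true] at hok
      exact hok.2
    obtain ⟨r, n, σ, hr, hσ, hg, h1, h2, h3⟩ := ih (fun x hx => hlt x (List.mem_cons_of_mem _ hx)) hok'
    have hy : y < 8 := hlt y (List.mem_cons_self)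
    by_cases hyg : y ∈ g
    · rw [hg] at hyg
      obtain ⟨x, hx, hxy⟩ := List.mem_map.mp hyg
      have hxn := h1 x hx
      have hok2 : Ok2 (x :: r) = true := by
        rw [← Ok2_map σ.injective (x :: r)]
        simp only [List.map]
        rw [hxy, ← hg]
        exact hok
      refine ⟨x :: r, n, σ, ?_, hσ, by simp [hxy, hg], ?_, ?_, h3⟩
      · simp only [List.length_cons, gen, List.mem_flatMap, List.mem_map, List.mem_filter,
          List.mem_range, Bool.and_eq_true]
        refine ⟨(r, n), hr, x, ⟨by omega, Nat.ble_eq.mpr hxn.le, hok2⟩, ?_⟩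
        have : Nat.beq x n = false := by
          rw [← Bool.not_eq_true, Nat.beq_eq]; omega
        simp [this]
      · intro z hz
        rcases List.mem_cons.mp hz with h | h
        · omega
        · exact h1 z h
      · intro z hz
        exact List.mem_cons_of_mem _ (h2 z hz)
    · -- a new colour
      have hn : n < 8 := by
        by_contra hcon
        have hn8 : n = 8 := by omega
        have hsub : (Finset.range 8).image σ ⊆ (Finset.range 8).erase y := by
          intro z hz
          obtain ⟨x, hx, rfl⟩ := Finset.mem_image.mp hz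
          have hx8 := Finset.mem_range.mp hx
          rw [Finset.mem_erase]
          refine ⟨?_, Finset.mem_range.mpr (hσ x hx8)⟩
          intro h
          apply hyg
          rw [hg, ← h]
          exact List.mem_map_of_mem (h2 x (by omega))
        have := Finset.card_le_card hsub
        rw [Finset.card_image_of_injective _ σ.injective, Finset.card_erase_of_mem
          (Finset.mem_range.mpr hy)] at this
        simp at this
      set τ : Equiv.Perm Nat := σ.trans (Equiv.swap (σ n) y) with hτ
      have hτn : τ n = y := by simp [hτ]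
      have hτx : ∀ x ∈ r, τ x = σ x := by
        intro x hx
        have hx1 : σ x ≠ σ n := fun h => by
          have := σ.injective h
          have := h1 x hx
          omega
        have hx2 : σ x ≠ y := fun h => hyg (by rw [hg, ← h]; exact List.mem_map_of_mem hx)
        simp [hτ, Equiv.swap_apply_of_ne_of_ne hx1 hx2]
      have hmap : r.map τ = g := by
        rw [hg]
        exact List.map_congr_left hτx
      have hok2 : Ok2 (n :: r) = true := by
        rw [← Ok2_map τ.injective (n :: r)]
        simp only [List.map]
        rw [hτn, hmap]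
        exact hok
      refine ⟨n :: r, n + 1, τ, ?_, ?_, by simp [hτn, hmap], ?_, ?_, by omega⟩
      · simp only [List.length_cons, gen, List.mem_flatMap, List.mem_map, List.mem_filter,
          List.mem_range, Bool.and_eq_true]
        refine ⟨(r, n), hr, n, ⟨hn, Nat.ble_eq.mpr le_rfl, hok2⟩, ?_⟩
        simp
      · intro m hm
        have hσn := hσ n hn
        simp only [hτ, Equiv.trans_apply]
        rw [Equiv.swap_apply_def]
        split_ifs
        · exact hy
        · exact hσn
        · exact hσ m hm
      · intro z hz
        rcases List.mem_cons.mp hz with h | h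
        · omega
        · have := h1 z h; omega
      · intro z hz
        by_cases h : z = n
        · subst h; exact List.mem_cons_self
        · exact List.mem_cons_of_mem _ (h2 z (by omega))

structure Mem (F : Nat) (g : List Nat) : Prop where
  len : g.length = 8
  lt : ∀ x ∈ g, x < 8
  ok : Ok2 g = true
  bit : Nat.testBit F (idx g) = true

lemma maskOf_spec (p q : Nat) (r : List Nat) (xs : List Nat) (i : Nat)
    (h : Nat.testBit (maskOf p q r xs) i = true) :
    ∃ x ∈ xs, Ok2 (insAt q x r) = true ∧ Ok2 (delAt p (insAt q x r)) = true ∧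
      idx (delAt p (insAt q x r)) = i := by
  induction xs with
  | nil => simp [maskOf] at h
  | cons x xs ih =>
    simp only [maskOf] at h
    cases hc : (Ok2 (insAt q x r) && Ok2 (delAt p (insAt q x r))) with
    | false =>
      rw [hc] at h
      obtain ⟨z, hz, h'⟩ := ih h
      exact ⟨z, List.mem_cons_of_mem _ hz, h'⟩
    | true =>
      rw [hc] at h
      simp only [cond_true] at h
      have h' : Nat.testBit (maskOf p q r xs ||| 2 ^ idx (delAt p (insAt q x r))) i = true := h
      rw [Nat.testBit_or, Bool.or_eq_true] at h'
      rcases h' with h' | h'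
      · obtain ⟨z, hz, h''⟩ := ih h'
        exact ⟨z, List.mem_cons_of_mem _ hz, h''⟩
      · rw [Nat.testBit_two_pow] at h'
        rw [Bool.and_eq_true] at hc
        exact ⟨x, List.mem_cons_self, hc.1, hc.2, by simpa using h'⟩

lemma land_ne_zero {a b : Nat} (h : Nat.land a b ≠ 0) :
    ∃ i, Nat.testBit a i = true ∧ Nat.testBit b i = true := by
  have h' : a &&& b ≠ 0 := h
  obtain ⟨i, hi⟩ := Nat.exists_testBit_of_ne_zero h'
  rw [Nat.testBit_and, Bool.and_eq_true] at hi
  exact ⟨i, hi⟩

lemma chk_mem {F G : Nat} {T : List (Nat × Nat)} (h : chk F G T = true) {b m : Nat}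
    (hm : (b, m) ∈ T) (hG : Nat.land G b ≠ 0) : Nat.land F m ≠ 0 := by
  induction T with
  | nil => simp at hm
  | cons bm t ih =>
    simp only [chk, Bool.and_eq_true, Bool.or_eq_true] at h
    rcases List.mem_cons.mp hm with h1 | h1
    · subst h1
      rcases h.1 with h2 | h2
      · exact absurd (Nat.eq_of_beq_eq_true h2) hG
      · intro h3
        have h2' : (!Nat.beq (Nat.land F m) 0) = true := h2
        rw [h3] at h2'
        exact absurd h2' (by decide)
    · exact ih h.2 h1

lemma mem_insAt {α : Type*} (n : Nat) (x : α) (l : List α) (y : α) (h : y ∈ insAt n x l) :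
    y = x ∨ y ∈ l := by
  induction n generalizing l with
  | zero => simpa [insAt] using h
  | succ n ih =>
    cases l with
    | nil => simpa [insAt] using h
    | cons z l =>
      simp only [insAt, List.mem_cons] at h
      rcases h with h | h
      · exact Or.inr (by simp [h])
      · rcases ih l h with h | h
        · exact Or.inl h
        · exact Or.inr (List.mem_cons_of_mem _ h)

lemma mem_delAt {α : Type*} (n : Nat) (l : List α) (y : α) (h : y ∈ delAt n l) : y ∈ l := by
  induction l generalizing n with
  | nil => cases n <;> simp [delAt] at h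
  | cons z l ih =>
    cases n with
    | zero => exact List.mem_cons_of_mem _ h
    | succ n =>
      simp only [delAt, List.mem_cons] at h
      rcases h with h | h
      · simp [h]
      · exact List.mem_cons_of_mem _ (ih n h)

lemma length_insAt {α : Type*} (n : Nat) (x : α) (l : List α) :
    (insAt n x l).length = l.length + 1 := by
  induction n generalizing l with
  | zero => rfl
  | succ n ih =>
    cases l with
    | nil => rfl
    | cons y l => simp only [insAt, List.length_cons, ih]

lemma length_delAt {α : Type*} (n : Nat) (l : List α) (h : n < l.length) :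
    (delAt n l).length = l.length - 1 := by
  induction l generalizing n with
  | nil => simp at h
  | cons y l ih =>
    cases n with
    | zero => rfl
    | succ n =>
      simp only [List.length_cons] at h
      simp only [delAt, List.length_cons, ih n (by omega)]
      omega

lemma step {F G p q : Nat} (hp : p ≤ 8) (h : chk F G (table p q) = true) (g : List Nat)
    (hg : Mem G g) : ∃ x, x < 8 ∧ Ok2 (insAt q x g) = true ∧ Mem F (delAt p (insAt q x g)) := by
  obtain ⟨r, n, σ, hr, hσ, hgr, -, -, -⟩ := complete g hg.lt hg.ok
  rw [hg.len] at hr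
  have hrp : r ∈ pats := List.mem_map.mpr ⟨(r, n), hr, rfl⟩
  have hrow : row p q r ∈ table p q := List.mem_map.mpr ⟨r, hrp, rfl⟩
  have hidx : idx g = idx r := by rw [hgr, idx_map σ.injective]
  have hG : Nat.land G (2 ^ idx r) ≠ 0 := by
    intro h0
    have h1 : Nat.testBit (G &&& 2 ^ idx r) (idx r) = true := by
      rw [Nat.testBit_and, Bool.and_eq_true]
      refine ⟨?_, by simp⟩
      rw [← hidx]; exact hg.bit
    have h2 : G &&& 2 ^ idx r = 0 := h0
    rw [h2] at h1
    simp at h1
  have hF := chk_mem h (b := 2 ^ idx r) (m := maskOf p q r [0, 1, 2, 3, 4, 5, 6, 7]) hrow hG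
  obtain ⟨i, hi1, hi2⟩ := land_ne_zero hF
  obtain ⟨x, hx, hx1, hx2, hx3⟩ := maskOf_spec _ _ _ _ _ hi2
  have hx8 : x < 8 := by
    simp only [List.mem_cons, List.not_mem_nil, or_false] at hx
    omega
  have e1 : insAt q (σ x) g = (insAt q x r).map σ := by rw [hgr, insAt_map]
  have e2 : delAt p (insAt q (σ x) g) = (delAt p (insAt q x r)).map σ := by
    rw [e1, delAt_map]
  refine ⟨σ x, hσ x hx8, ?_, ?_, ?_, ?_, ?_⟩
  · rw [e1, Ok2_map σ.injective]; exact hx1
  · rw [length_delAt _ _ (by rw [length_insAt, hg.len]; omega), length_insAt, hg.len]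
  · intro y hy
    have := mem_insAt _ _ _ _ (mem_delAt _ _ _ hy)
    rcases this with h | h
    · rw [h]; exact hσ x hx8
    · exact hg.lt y h
  · rw [e2, Ok2_map σ.injective]; exact hx2
  · rw [e2, idx_map σ.injective, hx3]; exact hi1

lemma checkAll_spec {fams : List Nat} {n : Nat} {T : List (Nat × Nat)} {Fs ts : List Nat}
    (hn : n = fams.length) (h : checkAll fams n T Fs ts = true) :
    ∀ F ∈ Fs, ∃ G ∈ fams, chk F G T = true := by
  induction Fs generalizing ts with
  | nil => intro F hF; simp at hF
  | cons F' Fs ih =>
    cases ts with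
    | nil => simp [checkAll] at h
    | cons t ts =>
      simp only [checkAll, Bool.and_eq_true] at h
      intro F hF
      rcases List.mem_cons.mp hF with h1 | h1
      · subst h1
        have ht : t < fams.length := by
          have := h.1.1
          rw [Nat.blt_eq] at this
          omega
        refine ⟨fams.getD t 0, ?_, h.1.2⟩
        rw [List.getD_eq_getElem _ _ ht]
        exact List.getElem_mem ht
      · exact ih h.2 F h1

end Pool.Agent.Helper41.Bar9
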