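import Mathlib
import Pool.Agent.Helper41.Bar9.Fams

set_option autoImplicit false

namespace Pool.Agent.Helper41.Bar9

section lists

variable {α : Type*}

lemma insAt_length (a b : List α) (v : α) : insAt a.length v (a ++ b) = a ++ v :: b := by
  induction a with
  | nil => rfl
  | cons y a ih => simp only [List.length_cons, List.cons_append, insAt, ih]

lemma delAt_length (a b : List α) (v : α) : delAt a.length (a ++ v :: b) = a ++ b := by
  induction a with
  | nil => rfl
  | cons y a ih => simp only [List.length_cons, List.cons_append, delAt, ih]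

lemma ins_del (p : ℕ) (l : List ℕ) (h : p < l.length) :
    insAt p (l.getD p 0) (delAt p l) = l := by
  induction l generalizing p with
  | nil => simp at h
  | cons y l ih =>
    cases p with
    | zero => simp [insAt, delAt]
    | succ p =>
      simp only [List.length_cons] at h
      simp only [delAt, insAt, List.getD_cons_succ, ih p (by omega)]

lemma del_ins (p : ℕ) (x : α) (l : List α) (h : p ≤ l.length) : delAt p (insAt p x l) = l := by
  induction l generalizing p with
  | nil =>
    have : p = 0 := by simpa using h
    subst this; rfl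
  | cons y l ih =>
    cases p with
    | zero => rfl
    | succ p =>
      simp only [List.length_cons] at h
      simp only [insAt, delAt, ih p (by omega)]

lemma take_delAt (p m : ℕ) (h : List α) (hp : p ≤ m) :
    (delAt p h).take m = delAt p (h.take (m + 1)) := by
  induction h generalizing p m with
  | nil => cases p <;> simp [delAt]
  | cons y h ih =>
    cases p with
    | zero => simp [delAt]
    | succ p =>
      cases m with
      | zero => omega
      | succ m => simp only [delAt, List.take_succ_cons, ih p m (by omega)]

lemma take_delAt' (p m : ℕ) (h : List α) (hp : m ≤ p) : (delAt p h).take m = h.take m := by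
  induction h generalizing p m with
  | nil => cases p <;> simp [delAt]
  | cons y h ih =>
    cases m with
    | zero => simp
    | succ m =>
      cases p with
      | zero => omega
      | succ p => simp only [delAt, List.take_succ_cons, ih p m (by omega)]

lemma take_insAt (q k : ℕ) (x : α) (l : List α) (hk : k ≤ q) (hl : k ≤ l.length) :
    (insAt q x l).take k = l.take k := by
  induction l generalizing q k with
  | nil =>
    have : k = 0 := by simpa using hl
    subst this; simp
  | cons y l ih =>
    cases k with
    | zero => simp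
    | succ k =>
      cases q with
      | zero => omega
      | succ q =>
        simp only [List.length_cons] at hl
        simp only [insAt, List.take_succ_cons, ih q k (by omega) (by omega)]

end lists

lemma Ok2_take (l : List ℕ) (k : ℕ) (h : Ok2 l = true) : Ok2 (l.take k) = true := by
  induction l generalizing k with
  | nil => simp [Ok2]
  | cons x t ih =>
    cases k with
    | zero => simp [Ok2]
    | succ k =>
      rw [List.take_succ_cons]
      rcases t with _ | ⟨y, u⟩
      · simp [Ok2]
      · rcases u with _ | ⟨z, v⟩
        · rcases k with _ | k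
          · simp [Ok2]
          · simpa [Ok2] using h
        · simp only [Ok2, Bool.and_eq_true] at h ih ⊢
          rcases k with _ | _ | k
          · simp [Ok2]
          · simp only [List.take_succ_cons, List.take_zero, Ok2, Bool.and_true]
            exact ⟨h.1.1, trivial⟩
          · have := ih (k + 2) h.2
            simp only [List.take_succ_cons, Ok2, Bool.and_eq_true] at this ⊢
            exact ⟨⟨h.1.1, h.1.2⟩, this⟩

lemma Ok2_tail {x : ℕ} {l : List ℕ} (h : Ok2 (x :: l) = true) : Ok2 l = true := by
  simp only [Ok2, Bool.and_eq_true] at h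
  exact h.2

lemma Ok2_append (a l : List ℕ) (h : Ok2 (a ++ l) = true) : Ok2 l = true := by
  induction a with
  | nil => exact h
  | cons x a ih => exact ih (Ok2_tail h)

lemma Ok2_ne {x y : ℕ} (m b : List ℕ) (hm : m.length ≤ 1) (h : Ok2 (x :: (m ++ y :: b)) = true) :
    x ≠ y := by
  rcases m with _ | ⟨z, m⟩
  · simp only [List.nil_append, Ok2, Bool.and_eq_true] at h
    intro hxy
    subst hxy
    simp at h
  · have hm0 : m = [] := by
      cases m with
      | nil => rfl
      | cons w m => simp at hm
    subst hm0
    simp only [List.cons_append, List.nil_append, Ok2, Bool.and_eq_true] at h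
    intro hxy
    subst hxy
    simp at h

/-- Sequences of slices. -/
inductive Sweep {V : Type*} : List V → List (List V) → Prop
  | nil : Sweep [] [[]]
  | ins {a b : List V} {v : V} {H : List (List V)} : Sweep (a ++ b) H → (∀ t ∈ H, v ∉ t) →
      (a ++ b).length ≤ 8 → Sweep (a ++ v :: b) ((a ++ v :: b) :: H)
  | del {a b : List V} {v : V} {H : List (List V)} : Sweep (a ++ v :: b) H →
      Sweep (a ++ b) ((a ++ b) :: H)

lemma Sweep.mem {V : Type*} {s : List V} {H : List (List V)} (h : Sweep s H) : s ∈ H := by
  cases h <;> simp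

def Good {V : Type*} (c : V → ℕ) (H : List (List V)) : Prop :=
  (∀ v, c v < 8) ∧ ∀ t ∈ H, Ok2 (t.map c) = true

def Inv {V : Type*} (s : List V) (H : List (List V)) : Prop :=
  (s.length ≤ 8 ∧ ∃ F ∈ fams, ∀ g, Mem F g → ∃ c : V → ℕ, Good c H ∧ s.map c = g.take s.length) ∨
  (s.length = 9 ∧ ∃ F ∈ fams, ∃ p ≤ 8, ∀ h : List ℕ, h.length = 9 → (∀ x ∈ h, x < 8) →
    Ok2 h = true → Mem F (delAt p h) → ∃ c : V → ℕ, Good c H ∧ s.map c = h)

lemma map_update {V : Type*} [DecidableEq V] (c : V → ℕ) (v : V) (x : ℕ) (s : List V)
    (h : v ∉ s) : s.map (Function.update c v x) = s.map c := by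
  apply List.map_congr_left
  intro w hw
  have h2 : w ≠ v := by rintro rfl; exact h hw
  rw [Function.update_of_ne h2]

lemma getD_lt (l : List ℕ) (p : ℕ) (h : ∀ x ∈ l, x < 8) : l.getD p 0 < 8 := by
  by_cases hp : p < l.length
  · rw [List.getD_eq_getElem _ _ hp]
    exact h _ (List.getElem_mem hp)
  · rw [List.getD_eq_default _ _ (by omega)]
    norm_num

theorem inv_of_sweep (closed : ∀ F ∈ fams, ∀ p ≤ 8, ∀ q ≤ 8, ∃ G ∈ fams, chk F G (table p q) = true)
    {V : Type*} {s : List V} {H : List (List V)} (hs : Sweep s H) : Inv s H := by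
  classical
  induction hs with
  | nil =>
    left
    refine ⟨by simp, ?_⟩
    have hne : fams ≠ [] := by
      intro h
      have := length_fams
      rw [h] at this
      simp at this
    obtain ⟨F, hF⟩ := List.exists_mem_of_ne_nil _ hne
    refine ⟨F, hF, fun g _ => ⟨fun _ => 0, ⟨fun _ => by norm_num, ?_⟩, by simp⟩⟩
    intro t ht
    simp only [List.mem_singleton] at ht
    subst ht
    rfl
  | @ins a b v H _ hfresh hlen ih =>
    have hsmem : (a ++ b) ∈ H := Sweep.mem ‹_›
    have hv : v ∉ a ++ b := hfresh _ hsmem
    have hmapins : ∀ (c : V → ℕ), (a ++ v :: b).map c = insAt a.length (c v) ((a ++ b).map c) := by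
      intro c
      rw [← insAt_length, insAt_map]
    have hlen' : (a ++ v :: b).length = (a ++ b).length + 1 := by simp; omega
    have hpa : a.length ≤ (a ++ b).length := by simp
    have goodupd : ∀ (c : V → ℕ) (x : ℕ) (w : List ℕ), Good c H → x < 8 → Ok2 w = true →
        (a ++ v :: b).map (Function.update c v x) = w →
        Good (Function.update c v x) ((a ++ v :: b) :: H) := by
      intro c x w hc hx hw hmap
      refine ⟨?_, ?_⟩
      · intro u
        by_cases hu : u = v
        · subst hu; rw [Function.update_self]; exact hx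
        · rw [Function.update_of_ne hu]; exact hc.1 u
      · intro t ht
        rcases List.mem_cons.mp ht with h1 | h1
        · rw [h1, hmap]; exact hw
        · rw [map_update _ _ _ _ (hfresh t h1)]; exact hc.2 t h1
    rcases ih with ⟨_, F, hF, hc⟩ | ⟨h9, _⟩
    · by_cases h8 : (a ++ b).length ≤ 7
      · -- the composite with the last place
        left
        obtain ⟨G, hG, hchk⟩ := closed F hF a.length (by omega) 8 le_rfl
        refine ⟨by omega, G, hG, ?_⟩
        intro g' hg'
        obtain ⟨x, hx, hok, hmem⟩ := step (by omega) hchk g' hg'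
        obtain ⟨c, hgood, hmap⟩ := hc _ hmem
        have e1 : (insAt 8 x g').take ((a ++ b).length + 1) = g'.take ((a ++ b).length + 1) :=
          take_insAt _ _ _ _ (by omega) (by rw [hg'.len]; omega)
        rw [take_delAt _ _ _ hpa, e1] at hmap
        set u := g'.take ((a ++ b).length + 1) with hu
        have hulen : u.length = (a ++ b).length + 1 := by
          rw [hu, List.length_take, hg'.len]; omega
        have hult : ∀ x ∈ u, x < 8 := fun x hx => hg'.lt x (List.mem_of_mem_take hx)
        have hmap' : (a ++ v :: b).map (Function.update c v (u.getD a.length 0)) = u := by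
          rw [hmapins, Function.update_self, map_update _ _ _ _ hv, hmap]
          exact ins_del _ _ (by omega)
        refine ⟨Function.update c v (u.getD a.length 0), ?_, ?_⟩
        · exact goodupd c _ u hgood (getD_lt _ _ hult) (Ok2_take _ _ hg'.ok) hmap'
        · rw [hmap', hlen']
      · right
        have h8' : (a ++ b).length = 8 := by omega
        refine ⟨by omega, F, hF, a.length, by omega, ?_⟩
        intro h hh1 hh2 hh3 hh4
        obtain ⟨c, hgood, hmap⟩ := hc _ hh4
        rw [h8', List.take_of_length_le (by rw [hh4.len])] at hmap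
        have hmap' : (a ++ v :: b).map (Function.update c v (h.getD a.length 0)) = h := by
          rw [hmapins, Function.update_self, map_update _ _ _ _ hv, hmap]
          exact ins_del _ _ (by omega)
        exact ⟨Function.update c v (h.getD a.length 0),
          goodupd c _ h hgood (getD_lt _ _ hh2) hh3 hmap', hmap'⟩
    · omega
  | @del a b v H _ ih =>
    have hmapdel : ∀ (c : V → ℕ), (a ++ b).map c = delAt a.length ((a ++ v :: b).map c) := by
      intro c
      rw [← delAt_map, delAt_length]
    have hlen' : (a ++ v :: b).length = (a ++ b).length + 1 := by simp; omega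
    have hpa : a.length ≤ (a ++ b).length := by simp
    have goodcons : ∀ (c : V → ℕ) (w : List ℕ), Good c H → Ok2 w = true → (a ++ b).map c = w →
        Good c ((a ++ b) :: H) := by
      intro c w hc hw hmap
      refine ⟨hc.1, ?_⟩
      intro t ht
      rcases List.mem_cons.mp ht with h1 | h1
      · rw [h1, hmap]; exact hw
      · exact hc.2 t h1
    rcases ih with ⟨h8, F, hF, hc⟩ | ⟨h9, F, hF, p, hp, hc⟩
    · left
      obtain ⟨G, hG, hchk⟩ := closed F hF 8 le_rfl a.length (by omega)
      refine ⟨by omega, G, hG, ?_⟩
      intro g' hg'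
      obtain ⟨x, hx, hok, hmem⟩ := step (by omega) hchk g' hg'
      obtain ⟨c, hgood, hmap⟩ := hc _ hmem
      rw [take_delAt' _ _ _ h8] at hmap
      have hmap' : (a ++ b).map c = g'.take (a ++ b).length := by
        rw [hmapdel, hmap, hlen', ← take_delAt _ _ _ hpa, del_ins _ _ _ (by rw [hg'.len]; omega)]
      exact ⟨c, goodcons c _ hgood (Ok2_take _ _ hg'.ok) hmap', hmap'⟩
    · left
      obtain ⟨G, hG, hchk⟩ := closed F hF p hp a.length (by omega)
      refine ⟨by omega, G, hG, ?_⟩
      intro g' hg'
      obtain ⟨x, hx, hok, hmem⟩ := step hp hchk g' hg'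
      have hlt : ∀ y ∈ insAt a.length x g', y < 8 := by
        intro y hy
        rcases mem_insAt _ _ _ _ hy with h | h
        · rw [h]; exact hx
        · exact hg'.lt y h
      obtain ⟨c, hgood, hmap⟩ := hc _ (by rw [length_insAt, hg'.len]) hlt hok hmem
      have hmap' : (a ++ b).map c = g' := by
        rw [hmapdel, hmap, del_ins _ _ _ (by rw [hg'.len]; omega)]
      refine ⟨c, goodcons c _ hgood hg'.ok hmap', ?_⟩
      rw [hmap', List.take_of_length_le]
      rw [hg'.len]; omega

lemma gen_spec (m : ℕ) (r : List ℕ) (n : ℕ) (h : (r, n) ∈ gen m) :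
    r.length = m ∧ (∀ x ∈ r, x < 8) ∧ Ok2 r = true := by
  induction m generalizing r n with
  | zero =>
    simp only [gen, List.mem_singleton, Prod.mk.injEq] at h
    obtain ⟨rfl, rfl⟩ := h
    simp [Ok2]
  | succ m ih =>
    simp only [gen, List.mem_flatMap, List.mem_map, List.mem_filter,
      List.mem_range, Bool.and_eq_true] at h
    obtain ⟨⟨r', n'⟩, hr', x, ⟨hx, _, hok⟩, he⟩ := h
    simp only [Prod.mk.injEq] at he
    obtain ⟨he1, _⟩ := he
    subst he1
    obtain ⟨h1, h2, _⟩ := ih r' n' hr'
    refine ⟨by simp [h1], ?_, hok⟩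
    intro y hy
    rcases List.mem_cons.mp hy with h | h
    · omega
    · exact h2 y h

lemma nonemp_spec {F : ℕ} {l : List (List ℕ)} (h : nonemp F l = true) :
    ∃ r ∈ l, Nat.testBit F (idx r) = true := by
  induction l with
  | nil => simp [nonemp] at h
  | cons r l ih =>
    simp only [nonemp, Bool.or_eq_true] at h
    rcases h with h | h
    · exact ⟨r, List.mem_cons_self, h⟩
    · obtain ⟨r', hr', h'⟩ := ih h
      exact ⟨r', List.mem_cons_of_mem _ hr', h'⟩

lemma fams_nonemp : fams.all (fun F => nonemp F pats) = true := by decide +kernel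

theorem colour_of_sweep
    (closed : ∀ F ∈ fams, ∀ p ≤ 8, ∀ q ≤ 8, ∃ G ∈ fams, chk F G (table p q) = true)
    {V : Type*} {s : List V} {H : List (List V)} (hs : Sweep s H) (hlen : s.length ≤ 8) :
    ∃ c : V → ℕ, (∀ v, c v < 8) ∧ ∀ t ∈ H, Ok2 (t.map c) = true := by
  rcases inv_of_sweep closed hs with ⟨_, F, hF, hc⟩ | ⟨h9, _⟩
  · have h1 := List.all_eq_true.mp fams_nonemp F hF
    obtain ⟨r, hr, hbit⟩ := nonemp_spec h1
    obtain ⟨⟨r', n⟩, hr', he⟩ := List.mem_map.mp hr
    simp only at he
    subst he
    obtain ⟨g1, g2, g3⟩ := gen_spec 8 r' n hr'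
    obtain ⟨c, hgood, _⟩ := hc r' ⟨g1, g2, g3, hbit⟩
    exact ⟨c, hgood.1, hgood.2⟩
  · omega

end Pool.Agent.Helper41.Bar9
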