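import Mathlib
import Pool.Agent.Helper41.Bar9.Sweep

set_option autoImplicit false

namespace Pool.Agent.Helper41.Bar9

lemma exists_remove {V : Type*} {s' s : List V} (h : List.Sublist s' s) (hlt : s'.length < s.length) :
    ∃ a v b, s = a ++ v :: b ∧ List.Sublist s' (a ++ b) := by
  induction h with
  | slnil => simp at hlt
  | @cons l₁ l₂ x h ih => exact ⟨[], x, l₂, by simp, by simpa using h⟩
  | @cons_cons l₁ l₂ x h ih =>
    simp only [List.length_cons] at hlt
    obtain ⟨a, v, b, h1, h2⟩ := ih (by omega)
    exact ⟨x :: a, v, b, by simp [h1], by simpa using h2⟩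

lemma sweep_remove {V : Type*} (n : ℕ) {s s' : List V} {H : List (List V)} (hn : s.length = n)
    (hs : Sweep s H) (h : List.Sublist s' s) :
    ∃ H', Sweep s' H' ∧ (∀ t ∈ H, t ∈ H') ∧ ∀ t ∈ H', t ∈ H ∨ ∀ v ∈ t, v ∈ s := by
  induction n generalizing s H with
  | zero =>
    have : s = [] := List.length_eq_zero_iff.mp hn
    subst this
    have : s' = [] := List.sublist_nil.mp h
    subst this
    exact ⟨H, hs, fun t ht => ht, fun t ht => Or.inl ht⟩
  | succ n ih =>
    by_cases hlt : s'.length < s.length
    · obtain ⟨a, v, b, h1, h2⟩ := exists_remove h hlt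
      subst h1
      obtain ⟨H', k1, k2, k3⟩ := ih (s := a ++ b) (by simp at hn ⊢; omega) (Sweep.del hs) h2
      refine ⟨H', k1, fun t ht => k2 t (List.mem_cons_of_mem _ ht), fun t ht => ?_⟩
      have hsub : ∀ w ∈ a ++ b, w ∈ a ++ v :: b := by
        intro w hw
        simp only [List.mem_append, List.mem_cons] at hw ⊢
        tauto
      rcases k3 t ht with h3 | h3
      · rcases List.mem_cons.mp h3 with h4 | h4
        · right
          intro w hw
          rw [h4] at hw
          exact hsub w hw
        · exact Or.inl h4
      · exact Or.inr fun w hw => hsub w (h3 w hw)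
    · have : s' = s := h.eq_of_length_le (by omega)
      subst this
      exact ⟨H, hs, fun t ht => ht, fun t ht => Or.inl ht⟩

lemma sweep_insert {V : Type*} (n : ℕ) {s s' : List V} {H : List (List V)} (hn : s'.length = n)
    (hs : Sweep s H) (h : List.Sublist s s') (h9 : s'.length ≤ 9) (hnd : s'.Nodup)
    (hfresh : ∀ v ∈ s', v ∉ s → ∀ t ∈ H, v ∉ t) :
    ∃ H', Sweep s' H' ∧ (∀ t ∈ H, t ∈ H') ∧ ∀ t ∈ H', t ∈ H ∨ ∀ v ∈ t, v ∈ s' := by
  induction n generalizing s' with
  | zero =>
    have : s' = [] := List.length_eq_zero_iff.mp hn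
    subst this
    have : s = [] := List.sublist_nil.mp h
    subst this
    exact ⟨H, hs, fun t ht => ht, fun t ht => Or.inl ht⟩
  | succ n ih =>
    by_cases hlt : s.length < s'.length
    · obtain ⟨a, v, b, h1, h2⟩ := exists_remove h hlt
      subst h1
      have hsub : ∀ w ∈ a ++ b, w ∈ a ++ v :: b := by
        intro w hw
        simp only [List.mem_append, List.mem_cons] at hw ⊢
        tauto
      have hv : v ∉ a ++ b := by
        have := List.nodup_middle.mp hnd
        exact (List.nodup_cons.mp this).1
      have hnd' : (a ++ b).Nodup := by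
        have := List.nodup_middle.mp hnd
        exact (List.nodup_cons.mp this).2
      obtain ⟨H', k1, k2, k3⟩ := ih (s' := a ++ b) (by simp at hn ⊢; omega) h2
        (by simp at h9 ⊢; omega) hnd' (fun w hw hws t ht => hfresh w (hsub w hw) hws t ht)
      have hvs : v ∉ s := fun hvs => hv (h2.subset hvs)
      refine ⟨_, Sweep.ins k1 ?_ (by simp at h9 ⊢; omega), fun t ht => List.mem_cons_of_mem _ (k2 t ht), ?_⟩
      · intro t ht hvt
        rcases k3 t ht with h3 | h3
        · exact hfresh v (by simp) hvs t h3 hvt
        · exact hv (h3 v hvt)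
      · intro t ht
        rcases List.mem_cons.mp ht with h4 | h4
        · right; intro w hw; rw [h4] at hw; exact hw
        · rcases k3 t h4 with h5 | h5
          · exact Or.inl h5
          · exact Or.inr fun w hw => hsub w (h5 w hw)
    · have : s = s' := h.eq_of_length_le (by omega)
      subst this
      exact ⟨H, hs, fun t ht => ht, fun t ht => Or.inl ht⟩

/-- The slice over `x`. -/
noncomputable def slice {V : Type*} (all : List V) (l r : V → ℝ) (x : ℝ) : List V :=
  by classical exact all.filter (fun v => decide (l v < x ∧ x < r v))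

lemma mem_slice {V : Type*} {all : List V} {l r : V → ℝ} {x : ℝ} {v : V} :
    v ∈ slice all l r x ↔ v ∈ all ∧ l v < x ∧ x < r v := by
  classical
  unfold slice
  rw [List.mem_filter]
  simp

lemma slice_congr {V : Type*} {all : List V} {l r : V → ℝ} {x x' : ℝ}
    (h : ∀ v ∈ all, (l v < x ∧ x < r v) ↔ (l v < x' ∧ x' < r v)) :
    slice all l r x = slice all l r x' := by
  classical
  unfold slice
  apply List.filter_congr
  intro v hv
  simp only [decide_eq_decide]
  exact h v hv

theorem sweep_upto {V : Type*} (all : List V) (l r : V → ℝ) (hnd : all.Nodup)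
    (hlr : ∀ v, l v < r v) (h9 : ∀ x, (slice all l r x).length ≤ 9) (E : Finset ℝ)
    (hE : ∀ v ∈ all, l v ∈ E ∧ r v ∈ E) (n : ℕ) :
    ∀ x, x ∉ E → (E.filter (· < x)).card = n → ∃ H, Sweep (slice all l r x) H ∧
      (∀ x', x' ∉ E → x' ≤ x → slice all l r x' ∈ H) ∧ ∀ t ∈ H, ∀ v ∈ t, l v < x := by
  classical
  induction n with
  | zero =>
    intro x hx hc
    have hno : ∀ e ∈ E, x < e := by
      intro e he
      rw [Finset.card_eq_zero, Finset.filter_eq_empty_iff] at hc
      have := hc he
      rcases lt_trichotomy e x with h | h | h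
      · exact absurd h this
      · exact absurd (h ▸ he) hx
      · exact h
    have hnil : ∀ x', x' ≤ x → slice all l r x' = [] := by
      intro x' hx'
      rw [List.eq_nil_iff_forall_not_mem]
      intro v hv
      rw [mem_slice] at hv
      have := hno _ (hE v hv.1).1
      linarith [hv.2.1]
    refine ⟨[[]], ?_, ?_, ?_⟩
    · rw [hnil x le_rfl]; exact Sweep.nil
    · intro x' _ hx'
      rw [hnil x' hx']; simp
    · intro t ht v hv
      simp only [List.mem_singleton] at ht
      subst ht
      simp at hv
  | succ n ih =>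
    intro x hx hc
    have hne : (E.filter (· < x)).Nonempty := Finset.card_pos.mp (by omega)
    set e := (E.filter (· < x)).max' hne with he
    have heE : e ∈ E.filter (· < x) := Finset.max'_mem _ _
    have heE' := Finset.mem_filter.mp heE
    have hmax : ∀ f ∈ E, f < x → f ≤ e := fun f hf hfx =>
      Finset.le_max' _ _ (Finset.mem_filter.mpr ⟨hf, hfx⟩)
    -- a point just below `e`
    obtain ⟨x0, hx0e, hx0⟩ : ∃ x0, x0 < e ∧ ∀ f ∈ E, f < e → f < x0 := by
      by_cases hS : (E.filter (· < e)).Nonempty
      · have hm := Finset.mem_filter.mp (Finset.max'_mem _ hS)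
        refine ⟨((E.filter (· < e)).max' hS + e) / 2, by linarith [hm.2], ?_⟩
        intro f hf hfe
        have := Finset.le_max' (E.filter (· < e)) f (Finset.mem_filter.mpr ⟨hf, hfe⟩)
        linarith [hm.2]
      · refine ⟨e - 1, by linarith, ?_⟩
        intro f hf hfe
        exact absurd ⟨f, Finset.mem_filter.mpr ⟨hf, hfe⟩⟩ hS
    have hx0E : x0 ∉ E := fun h => lt_irrefl _ (hx0 x0 h hx0e)
    have hx0x : x0 < x := hx0e.trans heE'.2
    have hcard : (E.filter (· < x0)).card = n := by
      have : E.filter (· < x) = insert e (E.filter (· < x0)) := by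
        ext f
        simp only [Finset.mem_filter, Finset.mem_insert]
        constructor
        · rintro ⟨h1, h2⟩
          rcases lt_or_eq_of_le (hmax f h1 h2) with h | h
          · exact Or.inr ⟨h1, hx0 f h1 h⟩
          · exact Or.inl h
        · rintro (h | ⟨h1, h2⟩)
          · rw [h]; exact heE'
          · exact ⟨h1, h2.trans hx0x⟩
      rw [this, Finset.card_insert_of_notMem] at hc
      · omega
      · simp only [Finset.mem_filter, not_and, not_lt]
        intro _
        exact hx0e.le
    obtain ⟨H0, s0, v0, m0⟩ := ih x0 hx0E hcard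
    set M : List V := (slice all l r x0).filter (fun v => decide (x < r v)) with hM
    have hMsub : List.Sublist M (slice all l r x0) := List.filter_sublist
    have hMsub' : List.Sublist M (slice all l r x) := by
      have : M = (slice all l r x).filter (fun v => decide (l v < x0)) := by
        rw [hM]
        unfold slice
        rw [List.filter_filter, List.filter_filter]
        apply List.filter_congr
        intro v hv
        have : (x < r v ∧ l v < x0 ∧ x0 < r v) ↔ (l v < x0 ∧ l v < x ∧ x < r v) := by
          constructor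
          · rintro ⟨h1, h2, h3⟩; exact ⟨h2, h2.trans hx0x, h1⟩
          · rintro ⟨h1, h2, h3⟩; exact ⟨h3, h1, hx0x.trans h3⟩
        rw [Bool.eq_iff_iff]
        simp only [Bool.and_eq_true, decide_eq_true_eq]
        exact this
      rw [this]
      exact List.filter_sublist
    obtain ⟨H1, s1, v1, m1⟩ := sweep_remove _ rfl s0 hMsub
    have hndx : (slice all l r x).Nodup := by
      unfold slice
      exact hnd.filter _
    obtain ⟨H2, s2, v2, m2⟩ := sweep_insert _ rfl s1 hMsub' (h9 x) hndx (by
      intro v hv hvM t ht hvt
      have hvx := mem_slice.mp hv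
      have hlx0 : l v < x0 := by
        rcases m1 t ht with h | h
        · exact m0 t h v hvt
        · exact (mem_slice.mp (h v hvt)).2.1
      apply hvM
      rw [hM, List.mem_filter]
      exact ⟨mem_slice.mpr ⟨hvx.1, hlx0, hx0x.trans hvx.2.2⟩, by simpa using hvx.2.2⟩)
    refine ⟨H2, s2, ?_, ?_⟩
    · intro x' hx'E hx'
      rcases lt_trichotomy x' e with h | h | h
      · by_cases h0 : x' ≤ x0
        · exact v2 _ (v1 _ (v0 x' hx'E h0))
        · push Not at h0
          have : slice all l r x' = slice all l r x0 := by
            apply slice_congr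
            intro v hv
            obtain ⟨hl, hr⟩ := hE v hv
            constructor
            · rintro ⟨h1, h2⟩
              exact ⟨hx0 _ hl (h1.trans h), h0.trans h2⟩
            · rintro ⟨h1, h2⟩
              refine ⟨h1.trans h0, ?_⟩
              by_contra hcon
              push Not at hcon
              have := hx0 _ hr (lt_of_le_of_lt hcon h)
              linarith
          rw [this]
          exact v2 _ (v1 _ (v0 x0 hx0E le_rfl))
      · exact absurd (h ▸ heE'.1) hx'E
      · have : slice all l r x' = slice all l r x := by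
          apply slice_congr
          intro v hv
          obtain ⟨hl, hr⟩ := hE v hv
          constructor
          · rintro ⟨h1, h2⟩
            refine ⟨lt_of_lt_of_le h1 hx', ?_⟩
            by_contra hcon
            push Not at hcon
            rcases lt_or_eq_of_le hcon with h3 | h3
            · have := hmax _ hr h3
              linarith
            · exact hx (h3 ▸ hr)
          · rintro ⟨h1, h2⟩
            refine ⟨lt_of_le_of_lt (hmax _ hl h1) h, lt_of_le_of_lt hx' h2⟩
        rw [this]
        exact s2.mem
    · intro t ht v hv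
      rcases m2 t ht with h | h
      · rcases m1 t h with h' | h'
        · exact (m0 t h' v hv).trans hx0x
        · exact (mem_slice.mp (h' v hv)).2.1.trans hx0x
      · exact (mem_slice.mp (h v hv)).2.1

theorem colour_bars (closed : ∀ F ∈ fams, ∀ p ≤ 8, ∀ q ≤ 8, ∃ G ∈ fams, chk F G (table p q) = true)
    {V : Type*} [Finite V] (l r y : V → ℝ) (hlr : ∀ v, l v < r v)
    (hw : ∀ x, {v : V | l v < x ∧ x < r v}.encard ≤ 9) :
    ∃ (E : Finset ℝ) (c : V → ℕ), (∀ v, c v < 8) ∧ ∀ u v x, u ≠ v → x ∉ E →
      l u < x → x < r u → l v < x → x < r v →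
      {w : V | w ≠ u ∧ w ≠ v ∧ l w < x ∧ x < r w ∧ min (y u) (y v) ≤ y w ∧
        y w ≤ max (y u) (y v)}.encard ≤ 1 → c u ≠ c v := by
  classical
  have := Fintype.ofFinite V
  set all : List V := (Finset.univ : Finset V).toList.mergeSort (fun a b => decide (y a ≤ y b))
    with hall
  have hperm : all.Perm (Finset.univ : Finset V).toList := List.mergeSort_perm _ _
  have hnd : all.Nodup := hperm.nodup_iff.mpr (Finset.nodup_toList _)
  have hmem : ∀ v, v ∈ all := fun v => hperm.mem_iff.mpr (by simp)
  have hsorted : all.Pairwise (fun a b => y a ≤ y b) := by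
    have := List.pairwise_mergeSort (le := fun a b => decide (y a ≤ y b))
      (by intro a b c h1 h2; simp only [decide_eq_true_eq] at *; exact h1.trans h2)
      (by intro a b; simp only [Bool.or_eq_true, decide_eq_true_eq]; exact le_total _ _)
      (Finset.univ : Finset V).toList
    exact this.imp (by intro a b h; simpa using h)
  have h9 : ∀ x, (slice all l r x).length ≤ 9 := by
    intro x
    have hndx : (slice all l r x).Nodup := by
      unfold slice
      exact hnd.filter _
    have h1 : (slice all l r x).length = (slice all l r x).toFinset.card :=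
      (List.toFinset_card_of_nodup hndx).symm
    have h2 : (((slice all l r x).toFinset : Finset V) : Set V) = {v : V | l v < x ∧ x < r v} := by
      ext v
      simp [mem_slice, hmem]
    have h3 := hw x
    rw [← h2, Set.encard_coe_eq_coe_finsetCard] at h3
    rw [h1]
    exact_mod_cast h3
  set E : Finset ℝ := Finset.univ.image l ∪ Finset.univ.image r with hEdef
  have hE : ∀ v ∈ all, l v ∈ E ∧ r v ∈ E := by
    intro v _
    constructor <;> simp [hEdef]
  -- a point to the right of everything
  obtain ⟨X, hX⟩ : ∃ X : ℝ, ∀ e ∈ E, e < X := by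
    obtain ⟨B, hB⟩ := E.bddAbove
    exact ⟨B + 1, fun e he => by have := hB he; linarith⟩
  have hXE : X ∉ E := fun h => lt_irrefl _ (hX X h)
  obtain ⟨H, hs, hv, -⟩ := sweep_upto all l r hnd hlr h9 E hE _ X hXE rfl
  have hXnil : slice all l r X = [] := by
    rw [List.eq_nil_iff_forall_not_mem]
    intro v hv'
    rw [mem_slice] at hv'
    have := hX _ (hE v hv'.1).2
    linarith [hv'.2.2]
  obtain ⟨c, hc8, hc⟩ := colour_of_sweep closed hs (by rw [hXnil]; simp)
  refine ⟨E, c, hc8, ?_⟩
  intro u v x huv hxE hu1 hu2 hv1 hv2 hbet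
  have hxX : x ≤ X := (hu2.trans (hX _ (hE u (hmem u)).2)).le
  have hok := hc _ (hv x hxE hxX)
  have hndx : (slice all l r x).Nodup := by
    unfold slice
    exact hnd.filter _
  have hsx : (slice all l r x).Pairwise (fun a b => y a ≤ y b) := by
    unfold slice
    exact hsorted.filter _
  have main : ∀ u v : V, u ≠ v → {w : V | w ≠ u ∧ w ≠ v ∧ l w < x ∧ x < r w ∧
      min (y u) (y v) ≤ y w ∧ y w ≤ max (y u) (y v)}.encard ≤ 1 →
      (∃ a m b, slice all l r x = a ++ u :: (m ++ v :: b)) → c u ≠ c v := by
    rintro u v huv hbet ⟨a, m, b, hdec⟩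
    rw [hdec] at hok hndx hsx
    have hm1 : m.length ≤ 1 := by
      have hndm : m.Nodup := by
        have h1 := (List.nodup_append.mp hndx).2.1
        have h2 := (List.nodup_cons.mp h1).2
        exact (List.nodup_append.mp h2).1
      have hsub : ((m.toFinset : Finset V) : Set V) ⊆ {w : V | w ≠ u ∧ w ≠ v ∧ l w < x ∧ x < r w ∧
          min (y u) (y v) ≤ y w ∧ y w ≤ max (y u) (y v)} := by
        intro w hw
        have hwm : w ∈ m := by simpa using hw
        have hws : w ∈ slice all l r x := by rw [hdec]; simp [hwm]
        have hws' := mem_slice.mp hws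
        have h1 := (List.nodup_append.mp hndx).2.1
        have h2 := (List.nodup_cons.mp h1)
        have hwu : w ≠ u := by
          rintro rfl
          exact h2.1 (by simp [hwm])
        have hwv : w ≠ v := by
          rintro rfl
          have h3 := (List.nodup_append.mp h2.2).2.2
          exact h3 w hwm w (by simp) rfl
        have p1 := (List.pairwise_append.mp hsx).2.1
        have p2 := List.pairwise_cons.mp p1
        have hyu : y u ≤ y w := p2.1 w (by simp [hwm])
        have p3 := (List.pairwise_append.mp p2.2).2.2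
        have hyv : y w ≤ y v := p3 w hwm v (by simp)
        exact ⟨hwu, hwv, hws'.2.1, hws'.2.2, (min_le_left _ _).trans hyu,
          hyv.trans (le_max_right _ _)⟩
      have h3 := (Set.encard_le_encard hsub).trans hbet
      rw [Set.encard_coe_eq_coe_finsetCard, List.toFinset_card_of_nodup hndm] at h3
      exact_mod_cast h3
    have hok' : Ok2 (a.map c ++ (c u :: (m.map c ++ c v :: b.map c))) = true := by
      simpa using hok
    exact Ok2_ne _ _ (by simpa using hm1) (Ok2_append _ _ hok')
  have hus : u ∈ slice all l r x := mem_slice.mpr ⟨hmem u, hu1, hu2⟩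
  have hvs : v ∈ slice all l r x := mem_slice.mpr ⟨hmem v, hv1, hv2⟩
  obtain ⟨a, b, hab⟩ := List.append_of_mem hus
  rw [hab, List.mem_append, List.mem_cons] at hvs
  rcases hvs with h | h | h
  · obtain ⟨a1, a2, ha⟩ := List.append_of_mem h
    have hbet' : {w : V | w ≠ v ∧ w ≠ u ∧ l w < x ∧ x < r w ∧
      min (y v) (y u) ≤ y w ∧ y w ≤ max (y v) (y u)}.encard ≤ 1 := by
      rw [min_comm, max_comm]
      convert hbet using 3
      ext w
      constructor
      · rintro ⟨a, b, c⟩; exact ⟨b, a, c⟩
      · rintro ⟨a, b, c⟩; exact ⟨b, a, c⟩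
    exact (main v u huv.symm hbet' ⟨a1, a2, b, by rw [hab, ha]; simp⟩).symm
  · exact absurd h.symm huv
  · obtain ⟨b1, b2, hb⟩ := List.append_of_mem h
    exact main u v huv hbet ⟨a, b1, b2, by rw [hab, hb]⟩

end Pool.Agent.Helper41.Bar9
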